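import Pool.Agent.N557.QW.Stm

/-!
# Project QWP (helper557): the identical representation inside a faithful representation
-/

set_option autoImplicit false

namespace Pool.Agent.N286.QWP

open Pool.Agent.H494R3.GT Pool.Agent.N557.QW

noncomputable section

/-- continuous linear maps which agree on the basis -/
lemma ext_dl {P : Type} {H : Type} [NormedAddCommGroup H] [InnerProductSpace ℂ H]
    {T S : L2 P →L[ℂ] H} (h : ∀ x, T (dl x) = S (dl x)) : T = S := by
  classical
  ext1 v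
  have h1 := lp.hasSum_single (p := 2) (E := fun _ : P => ℂ) (by norm_num) v
  have e : ∀ i, lp.single (E := fun _ : P => ℂ) 2 i (v i) = v i • dl i := by
    intro i
    rw [dl]
    have := lp.single_smul (E := fun _ : P => ℂ) (𝕜 := ℂ) 2 i (v i) (1 : ℂ)
    rw [smul_eq_mul, mul_one] at this
    convert this
  simp only [e] at h1
  have h2 := T.hasSum h1
  have h3 := S.hasSum h1
  simp only [Function.comp_def, map_smul, h] at h2 h3
  exact h2.unique h3

variable {P : Type}

lemma eu_apply (p q : P) (v : L2 P) : eu p q v = inner ℂ (dl q) v • dl p := rfl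

lemma eu_dl (p q : P) : eu p q (dl q) = dl p := by
  classical
  rw [eu_apply, dl_inner, if_pos rfl, one_smul]

lemma eu_star (p q : P) : star (eu p q) = eu q p := by
  classical
  refine op_ext_inner fun x y => ?_
  rw [ContinuousLinearMap.star_eq_adjoint, ContinuousLinearMap.adjoint_inner_right, eu_apply,
    eu_apply, inner_smul_left, inner_smul_right, inner_conj_symm]
  exact mul_comm _ _

lemma mul_eu (x : L2 P →L[ℂ] L2 P) (p q : P) :
    x * eu p q = (innerSL ℂ (dl q)).smulRight (x (dl p)) := by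
  ext1 v
  rw [mul_ap, eu_apply, map_smul]
  rfl

lemma eu_mul_eu (p q r : P) : eu p q * eu q r = eu p r := by
  rw [mul_eu, eu_dl]
  rfl

lemma eu_mul_ne (p q q' r : P) (h : q ≠ q') : eu p q * eu q' r = 0 := by
  classical
  rw [mul_eu, eu_apply, dl_inner, if_neg h, zero_smul]
  ext1 v
  simp

theorem t_iso : S_ISO := by
  intro P ι β H _ _ _ C ρ hfin hC hE hρ
  classical
  -- base points
  obtain ⟨c, hc⟩ : ∃ c : ∀ b : ι, (∃ q, β q = b) → P, ∀ b h, β (c b h) = b :=
    ⟨fun b h => Classical.choose h, fun b h => Classical.choose_spec h⟩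
  obtain ⟨r, hr1, hr2⟩ : ∃ r : P → P, (∀ p, β (r p) = β p) ∧ ∀ p q, β p = β q → r p = r q := by
    refine ⟨fun p => c (β p) ⟨p, rfl⟩, fun p => hc _ _, fun p q h => ?_⟩
    have : ∀ b b' (h1 : ∃ q, β q = b) (h2 : ∃ q, β q = b'), b = b' → c b h1 = c b' h2 := by
      intro b b' h1 h2 h3
      subst h3
      rfl
    exact this _ _ _ _ h
  -- unit vectors
  have hη : ∀ p : P, ∃ η : H, ‖η‖ = 1 ∧ ρ ⟨eu p p, hE p p rfl⟩ η = η := by
    intro p
    have h0 : (⟨eu p p, hE p p rfl⟩ : C) ≠ 0 := by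
      intro h
      have h1 : eu p p = 0 := congrArg Subtype.val h
      have h2 := eu_dl p p
      rw [h1] at h2
      have h3 := congrArg (fun v : L2 P => v p) h2
      simp only [dl_apply_self] at h3
      exact zero_ne_one h3
    have h1 : ρ ⟨eu p p, hE p p rfl⟩ ≠ 0 := by
      intro h
      exact h0 (hρ (h.trans (map_zero ρ).symm))
    obtain ⟨w, hw⟩ : ∃ w, ρ ⟨eu p p, hE p p rfl⟩ w ≠ 0 := by
      by_contra h
      push Not at h
      exact h1 (by ext1 w; exact h w)
    have h2 : ρ ⟨eu p p, hE p p rfl⟩ (ρ ⟨eu p p, hE p p rfl⟩ w) = ρ ⟨eu p p, hE p p rfl⟩ w := by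
      have h3 : (⟨eu p p, hE p p rfl⟩ : C) * ⟨eu p p, hE p p rfl⟩ = ⟨eu p p, hE p p rfl⟩ :=
        Subtype.ext (eu_mul_eu p p p)
      calc ρ ⟨eu p p, hE p p rfl⟩ (ρ ⟨eu p p, hE p p rfl⟩ w) =
          (ρ ⟨eu p p, hE p p rfl⟩ * ρ ⟨eu p p, hE p p rfl⟩) w := rfl
        _ = _ := by rw [← map_mul, h3]
    refine ⟨((‖ρ ⟨eu p p, hE p p rfl⟩ w‖ : ℂ)⁻¹) • ρ ⟨eu p p, hE p p rfl⟩ w, ?_, ?_⟩
    · rw [norm_smul, norm_inv, Complex.norm_real, norm_norm]
      exact inv_mul_cancel₀ (norm_ne_zero_iff.2 hw)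
    · rw [map_smul, h2]
  choose η hη1 hη2 using hη
  -- the image of the basis
  obtain ⟨f, hf⟩ : ∃ f : P → H, ∀ q, f q = ρ ⟨eu q (r q), hE q (r q) (hr1 q).symm⟩ (η (r q)) :=
    ⟨fun q => ρ ⟨eu q (r q), hE q (r q) (hr1 q).symm⟩ (η (r q)), fun _ => rfl⟩
  have hstar : ∀ (p q : P) (h : β p = β q),
      star (⟨eu p q, hE p q h⟩ : C) = ⟨eu q p, hE q p h.symm⟩ := fun p q h =>
    Subtype.ext (eu_star p q)
  have horth : Orthonormal ℂ f := by
    rw [orthonormal_iff_ite]
    intro q q'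
    rw [hf, hf]
    rw [← ContinuousLinearMap.adjoint_inner_right, ← ContinuousLinearMap.star_eq_adjoint,
      ← map_star, hstar q (r q) (hr1 q).symm]
    have e1 : ρ ⟨eu (r q) q, hE (r q) q (hr1 q)⟩
        (ρ ⟨eu q' (r q'), hE q' (r q') (hr1 q').symm⟩ (η (r q'))) =
        ρ (⟨eu (r q) q, hE (r q) q (hr1 q)⟩ * ⟨eu q' (r q'), hE q' (r q') (hr1 q').symm⟩)
          (η (r q')) := by
      rw [map_mul]
      rfl
    rw [e1]
    by_cases h : q = q'
    · subst h
      rw [if_pos rfl]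
      have h3 : (⟨eu (r q) q, hE (r q) q (hr1 q)⟩ : C) *
          ⟨eu q (r q), hE q (r q) (hr1 q).symm⟩ = ⟨eu (r q) (r q), hE (r q) (r q) rfl⟩ :=
        Subtype.ext (eu_mul_eu _ _ _)
      rw [h3, hη2, inner_self_eq_norm_sq_to_K, hη1]
      norm_num
    · rw [if_neg h]
      have h3 : (⟨eu (r q) q, hE (r q) q (hr1 q)⟩ : C) *
          ⟨eu q' (r q'), hE q' (r q') (hr1 q').symm⟩ = 0 :=
        Subtype.ext (eu_mul_ne _ _ _ _ h)
      rw [h3, map_zero]
      exact inner_zero_right _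
  refine ⟨horth.orthogonalFamily.linearIsometry, ?_⟩
  obtain ⟨V, hV⟩ : ∃ V : L2 P →ₗᵢ[ℂ] H, V = horth.orthogonalFamily.linearIsometry := ⟨_, rfl⟩
  rw [← hV]
  have hVdl : ∀ q, V (dl q) = f q := by
    intro q
    rw [hV, dl]
    simp
  intro x
  -- agreement on the basis
  have hbasis : ∀ q, ρ x (V (dl q)) = V (x.1 (dl q)) := by
    intro q
    have : Finite {p // β p = β q} := hfin _
    have : Fintype {p // β p = β q} := Fintype.ofFinite _
    obtain ⟨F, hF⟩ : ∃ F : Finset P, ∀ p, p ∈ F ↔ β p = β q := by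
      have h0 : {p | β p = β q}.Finite := hfin (β q)
      refine ⟨h0.toFinset, fun p => ?_⟩
      rw [Set.Finite.mem_toFinset]
      rfl
    have hz : ∀ p, β p ≠ β q → inner ℂ (dl p) (x.1 (dl q)) = 0 := by
      intro p hp
      have h1 : x.1 ∈ BD β := hC x.2
      have h2 : MM {p | β p = β q} * x.1 = x.1 * MM {p | β p = β q} := by
        have h3 : x.1 ∈ Set.centralizer _ := h1
        rw [Set.mem_centralizer_iff] at h3
        exact h3 _ (Or.inl ⟨β q, rfl⟩)
      have h3 := congrArg (fun T : L2 P →L[ℂ] L2 P => T (dl q)) h2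
      simp only [mul_ap] at h3
      rw [MM_dl_mem (show q ∈ {p | β p = β q} from rfl)] at h3
      rw [← h3, ← ContinuousLinearMap.adjoint_inner_left, ← ContinuousLinearMap.star_eq_adjoint,
        star_MM, MM_dl_notMem (show p ∉ {p | β p = β q} from hp), inner_zero_left]
    have hsum : x.1 (dl q) = ∑ p ∈ F, inner ℂ (dl p) (x.1 (dl q)) • dl p := by
      apply vec_ext
      intro y
      rw [← inner_dl, ← inner_dl, inner_sum]
      simp only [inner_smul_right, dl_inner]
      by_cases hy : β y = β q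
      · rw [Finset.sum_eq_single y]
        · rw [if_pos rfl, mul_one]
        · intro p _ hp
          rw [if_neg (Ne.symm hp), mul_zero]
        · intro h
          exact absurd ((hF y).2 hy) h
      · rw [hz y hy]
        symm
        refine Finset.sum_eq_zero fun p hp => ?_
        rw [if_neg, mul_zero]
        rintro rfl
        exact hy ((hF y).1 hp)
    -- the operator
    have hprod : x * ⟨eu q (r q), hE q (r q) (hr1 q).symm⟩ =
        ∑ p ∈ F.attach, inner ℂ (dl p.1) (x.1 (dl q)) •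
          (⟨eu p.1 (r p.1), hE p.1 (r p.1) (hr1 p.1).symm⟩ : C) := by
      apply Subtype.ext
      have e1 : ((∑ p ∈ F.attach, inner ℂ (dl p.1) (x.1 (dl q)) •
          (⟨eu p.1 (r p.1), hE p.1 (r p.1) (hr1 p.1).symm⟩ : C) : C) : L2 P →L[ℂ] L2 P) =
          ∑ p ∈ F.attach, inner ℂ (dl p.1) (x.1 (dl q)) • eu p.1 (r p.1) := by
        rw [AddSubmonoidClass.coe_finsetSum]
        rfl
      rw [e1]
      show x.1 * eu q (r q) = _
      have e2 : ∑ p ∈ F.attach, inner ℂ (dl p.1) (x.1 (dl q)) • eu p.1 (r p.1) =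
          ∑ p ∈ F.attach, inner ℂ (dl p.1) (x.1 (dl q)) • eu p.1 (r q) :=
        Finset.sum_congr rfl fun p _ => by rw [hr2 p.1 q ((hF _).1 p.2)]
      rw [e2, Finset.sum_attach F (fun p => inner ℂ (dl p) (x.1 (dl q)) • eu p (r q))]
      ext1 v
      rw [mul_ap, eu_apply, map_smul]
      conv_lhs => rw [hsum]
      rw [sum_apply, Finset.smul_sum]
      refine Finset.sum_congr rfl fun p _ => ?_
      show _ = inner ℂ (dl p) (x.1 (dl q)) • eu p (r q) v
      rw [eu_apply, smul_comm]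
    have hl : ρ x (V (dl q)) = ρ (x * ⟨eu q (r q), hE q (r q) (hr1 q).symm⟩) (η (r q)) := by
      rw [hVdl, hf, map_mul]
      rfl
    rw [hl, hprod, map_sum, sum_apply]
    conv_rhs => rw [hsum, map_sum]
    rw [← Finset.sum_attach F (fun p => V (inner ℂ (dl p) (x.1 (dl q)) • dl p))]
    refine Finset.sum_congr rfl fun p _ => ?_
    rw [map_smul, map_smul, hVdl, hf]
    show inner ℂ (dl p.1) (x.1 (dl q)) • (ρ ⟨eu p.1 (r p.1), _⟩) (η (r q)) = _
    have e3 : η (r q) = η (r p.1) := by rw [hr2 p.1 q ((hF _).1 p.2)]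
    rw [e3]
  have hop : (ρ x) ∘L V.toContinuousLinearMap = V.toContinuousLinearMap ∘L x.1 :=
    ext_dl hbasis
  intro v
  exact congrArg (fun T : L2 P →L[ℂ] H => T v) hop

end

end Pool.Agent.N286.QWP
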